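import Pool.Agent.W_448v8_h97.VaC
import Pool.Agent.W_448n6_h84.NbA
import Pool.Agent.W_448pn_h63.QcD

/-!
MP_448cb3_co, G2, case B, `j = 8` (Step 0): THE VALUE OF THE NATURAL PARTS for the weights
`V8 = (-1, 7, 1, 2, 1, 1, 1, 6, 2)`, all sizes.  helper97.
-/

set_option autoImplicit false

namespace Pool.Agent.GaussPoset.EK

set_option linter.unusedSectionVars false

open Finset Win St Polynomial Wd Win.W4

universe u

variable {P : Type u} [Fintype P] [PartialOrder P] [DecidableEq P] {r : ℕ}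
  {t : Tops P} {m : ℕ} {x : ℕ → P} {c : ℕ → ℤ} {β : ℤ}

/-- THE VALUE of a natural part at `j = 8` -/
theorem NJ.nat_all8 (h : NJ P r 8) {lo hi : Tops P → ℕ → ℕ}
    {e : Tops P → ℕ → ℕ → P} (C : ∀ t : Tops P, Cp.Comp 8 (t : P) (lo t) (hi t) (e t))
    (hS : ∀ t : Tops P, Shape 8 (lo t) (hi t)) (B : RowB P 8 t m x c β)
    (hβ : β = 0) (hc : ∀ k, k < m → c k = 0) :
    0 ≤ 2 * Pn.own ⟨-1, 7, 1, 2, 1, 1, 1, 6, 2⟩ 7 8 t +
      ∑ p ∈ (PD P 7).filter (fun p => (topOf p : Tops P) = t),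
        Pn.shr ⟨-1, 7, 1, 2, 1, 1, 1, 6, 2⟩ 7 p := by
  classical
  have hn : NatT 8 (t : P) := RowB.nat_of h B hc hβ
  rcases Nat.lt_or_ge (st 7 (SS 7 t)).card 4 with h4 | h4
  · rcases Finset.eq_empty_or_nonempty (SO.F5 7 (SS 7 t)) with hF | hF
    · exact Pn.small_nonneg8 h hn (C t) (hS t) (by omega) hF
    · exact Pf.nat_flip8 h rfl (by norm_num) C hS hn hF.ne_empty
  · exact Wd.NJ.v8_nat_big h B (C t) (hS t) hβ hc h4

end Pool.Agent.GaussPoset.EK
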