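import Pool.Agent.W_448wd_h84.WdE
import Pool.Agent.W_448pn_h63.QcB

/-!
MP_448cb3_co, G2, case B, `j = 8` (Step 0): the words.  At the window `7` an upper pendant pattern lives
only over the words below; the rows of the levels `4 .. 8` are explicit.  helper97.
-/

set_option autoImplicit false

namespace Pool.Agent.GaussPoset.Wd

open Win.Pf (lsum rsum rows_sum)

variable {lo hi : ℕ → ℕ}

/-- the two upper pendant patterns at the window `7` -/
def Pu7 (lo hi : ℕ → ℕ) : Prop :=
  lo 7 < hi 7 ∧ ((lo 6 = lo 5 + 1 ∧ lo 7 = lo 6) ∨ (hi 6 = hi 5 ∧ hi 7 = hi 6 + 1))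

/-- the list of the rows with an upper pendant pattern at the window `7` -/
def Tab7 (lo hi : ℕ → ℕ) : Prop :=
  -- `a = 5`, `[OC, OO, OO]`
  ((lo 4 = 0 ∧ hi 4 = 0 ∧ lo 5 = 0 ∧ hi 5 = 1 ∧ lo 6 = 0 ∧ hi 6 = 1 ∧ lo 7 = 0 ∧ hi 7 = 2 ∧
    lo 8 = 0 ∧ hi 8 = 3) ∨
  -- `a = 5`, `[OC, OO, CO]`
  (lo 4 = 0 ∧ hi 4 = 0 ∧ lo 5 = 0 ∧ hi 5 = 1 ∧ lo 6 = 0 ∧ hi 6 = 1 ∧ lo 7 = 0 ∧ hi 7 = 2 ∧
    lo 8 = 1 ∧ hi 8 = 3) ∨
  -- `a = 5`, `[OC, CO, CO]`
  (lo 4 = 0 ∧ hi 4 = 0 ∧ lo 5 = 0 ∧ hi 5 = 1 ∧ lo 6 = 0 ∧ hi 6 = 1 ∧ lo 7 = 1 ∧ hi 7 = 2 ∧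
    lo 8 = 2 ∧ hi 8 = 3) ∨
  -- `a = 7`
  (lo 4 = 0 ∧ hi 4 = 0 ∧ lo 5 = 0 ∧ hi 5 = 0 ∧ lo 6 = 0 ∧ hi 6 = 0 ∧ lo 7 = 0 ∧ hi 7 = 1 ∧
    lo 8 ≤ 1 ∧ 1 ≤ hi 8 ∧ hi 8 ≤ 2 ∧ (lo 8 = 1 → hi 8 = 1)) ∨
  -- `a = 3`, `[OC, CO, CO, OC, CC]`
  (lo 4 = 0 ∧ hi 4 = 1 ∧ lo 5 = 1 ∧ hi 5 = 2 ∧ lo 6 = 2 ∧ hi 6 = 3 ∧ lo 7 = 2 ∧ hi 7 = 3 ∧
    lo 8 = 3 ∧ hi 8 = 3))

/-- the late words of length five over `a = 3` -/
lemma late3 : ∀ w ∈ lateW 3, w.length = 5 → w = [OC, CO, CO, OC, CC] := by decide

lemma late4 : ∀ w ∈ lateW 4, w.length = 4 → w = [OC, OO, CO, OO] ∨ w = [OC, CO, CO, OO] := by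
  decide

lemma late5 : ∀ w ∈ lateW 5, w.length = 3 → w = [OC, OO, OO] ∨ w = [OC, OO, CO] ∨
    w = [OC, CO, CO] := by
  decide

lemma late6' : ∀ w ∈ lateW 6, w.length = 2 → w = [OC, OO] ∨ w = [OC, CO] := by decide

lemma late7 : ∀ w ∈ lateW 7, w.length = 1 → w = [OO] ∨ w = [OC] := by decide

/-- THE LIST -/
theorem tab7 (hlo : ∀ k, k < 8 → lo (k + 1) = lo k ∨ lo (k + 1) = lo k + 1)
    (hhi : ∀ k, k < 8 → hi (k + 1) = hi k ∨ hi (k + 1) = hi k + 1) (h0 : hi 0 = 0)
    (S : Shape 8 lo hi) (hP : Pu7 lo hi) : Tab7 lo hi := by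
  have hle : ∀ k, k ≤ 8 → hi k ≤ k := by
    intro k
    induction k with
    | zero => intro _; omega
    | succ k ih =>
      intro hk
      have h1 := hhi k (by omega)
      have h2 := ih (by omega)
      omega
  obtain ⟨hV, hP⟩ := hP
  rcases S with h1 | ⟨h1, h2⟩ | ⟨-, h2⟩ | ⟨h1, -, -⟩ | ⟨h1, -⟩ | ⟨a, a3, a8, h2, h3, hN, h4⟩
  · have := h1 7 (by omega)
    omega
  · exfalso
    have g1 := h2.lo 5 (by omega)
    have g2 := h2.lo 6 (by omega)
    have g3 := h2.hi 5 (by omega)
    have g4 := h2.hi 6 (by omega)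
    have g5 := hle 5 (by omega)
    simp only [Nat.reduceAdd] at g1 g2 g3 g4
    omega
  · exfalso
    have g1 := h2.lo 5 (by omega)
    have g2 := h2.lo 6 (by omega)
    have g3 := h2.hi 5 (by omega)
    have g4 := h2.hi 6 (by omega)
    simp only [Nat.reduceAdd] at g1 g2
    omega
  · omega
  · omega
  · -- late
    obtain ⟨d, hd⟩ : ∃ d, 8 = a + d := ⟨8 - a, by omega⟩
    have hd2 : 8 - a = d := by omega
    rw [hd2] at h4
    have hlo' : ∀ k, k < a + d → lo (k + 1) = lo k ∨ lo (k + 1) = lo k + 1 := fun k hk =>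
      hlo k (by omega)
    have hhi' : ∀ k, k < a + d → hi (k + 1) = hi k ∨ hi (k + 1) = hi k + 1 := fun k hk =>
      hhi k (by omega)
    rcases h4 with ⟨⟨q1, q2⟩, h4⟩ | h4
    · obtain ⟨-, hv⟩ := Win.word_vals h4 hlo' hhi'
      have v0 := hv 0 true false (by
        obtain ⟨n, rfl⟩ : ∃ n, d = n + 1 := ⟨d - 1, by omega⟩
        rfl)
      simp only [if_true, Bool.false_eq_true, if_false, Nat.add_zero] at v0
      rcases Nat.lt_or_ge a 7 with ha | ha
      · exfalso
        -- one element on the level seven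
        have e7 : ∀ n, n + 1 ≤ d → lo (a + n + 1) = 1 ∧ hi (a + n + 1) = 1 := by
          intro n
          induction n with
          | zero => intro _; rw [Nat.add_zero]; omega
          | succ n ih =>
            intro hn
            obtain ⟨k1, k2⟩ := ih (by omega)
            have v1 := hv (n + 1) false false (by
              obtain ⟨m, rfl⟩ : ∃ m, d = m + 1 := ⟨d - 1, by omega⟩
              unfold Qw
              rw [List.getElem?_cons_succ, List.getElem?_replicate, if_pos (by omega)]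
              rfl)
            simp only [Bool.false_eq_true, if_false, Nat.add_zero] at v1
            rw [show a + (n + 1) + 1 = a + (n + 1) + 1 from rfl, v1.1, v1.2, ← Nat.add_assoc, k1, k2]
            exact ⟨rfl, rfl⟩
        have := e7 (7 - a - 1) (by omega)
        rw [show a + (7 - a - 1) + 1 = 7 by omega] at this
        omega
      · obtain rfl : a = 7 := by omega
        have e4 := h2 4 (by omega)
        have e5 := h2 5 (by omega)
        have e6 := h2 6 (by omega)
        simp only [Nat.reduceAdd] at v0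
        unfold Tab7
        omega
    · have hwl : (word lo hi a d).length = d := by simp
      have hs := fun n (hn : n ≤ d) => rows_sum (w := word lo hi a d) rfl h3 hlo' hhi' hn
      obtain rfl | rfl | rfl | rfl | rfl | rfl :
        a = 3 ∨ a = 4 ∨ a = 5 ∨ a = 6 ∨ a = 7 ∨ a = 8 := by omega
      · obtain rfl : d = 5 := by omega
        have hw := late3 _ h4 hwl
        rw [hw] at hs
        have s1 := hs 1 (by omega)
        have s2 := hs 2 (by omega)
        have s3 := hs 3 (by omega)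
        have s4 := hs 4 (by omega)
        have s5 := hs 5 (by omega)
        simp only [Nat.reduceAdd] at s1 s2 s3 s4 s5
        have t1 : lsum [OC, CO, CO, OC, CC] 1 = 0 ∧ rsum [OC, CO, CO, OC, CC] 1 = 1 := by decide
        have t2 : lsum [OC, CO, CO, OC, CC] 2 = 1 ∧ rsum [OC, CO, CO, OC, CC] 2 = 2 := by decide
        have t3 : lsum [OC, CO, CO, OC, CC] 3 = 2 ∧ rsum [OC, CO, CO, OC, CC] 3 = 3 := by decide
        have t4 : lsum [OC, CO, CO, OC, CC] 4 = 2 ∧ rsum [OC, CO, CO, OC, CC] 4 = 3 := by decide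
        have t5 : lsum [OC, CO, CO, OC, CC] 5 = 3 ∧ rsum [OC, CO, CO, OC, CC] 5 = 3 := by decide
        unfold Tab7
        omega
      · exfalso
        obtain rfl : d = 4 := by omega
        rcases late4 _ h4 hwl with hw | hw
        · rw [hw] at hs
          have s1 := hs 1 (by omega)
          have s2 := hs 2 (by omega)
          have s3 := hs 3 (by omega)
          simp only [Nat.reduceAdd] at s1 s2 s3
          have t1 : lsum [OC, OO, CO, OO] 1 = 0 ∧ rsum [OC, OO, CO, OO] 1 = 1 := by decide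
          have t2 : lsum [OC, OO, CO, OO] 2 = 0 ∧ rsum [OC, OO, CO, OO] 2 = 2 := by decide
          have t3 : lsum [OC, OO, CO, OO] 3 = 1 ∧ rsum [OC, OO, CO, OO] 3 = 3 := by decide
          omega
        · rw [hw] at hs
          have s1 := hs 1 (by omega)
          have s2 := hs 2 (by omega)
          have s3 := hs 3 (by omega)
          simp only [Nat.reduceAdd] at s1 s2 s3
          have t1 : lsum [OC, CO, CO, OO] 1 = 0 ∧ rsum [OC, CO, CO, OO] 1 = 1 := by decide
          have t2 : lsum [OC, CO, CO, OO] 2 = 1 ∧ rsum [OC, CO, CO, OO] 2 = 2 := by decide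
          have t3 : lsum [OC, CO, CO, OO] 3 = 2 ∧ rsum [OC, CO, CO, OO] 3 = 3 := by decide
          omega
      · obtain rfl : d = 3 := by omega
        have e4 := h2 4 (by omega)
        rcases late5 _ h4 hwl with hw | hw | hw
        · rw [hw] at hs
          have s1 := hs 1 (by omega)
          have s2 := hs 2 (by omega)
          have s3 := hs 3 (by omega)
          simp only [Nat.reduceAdd] at s1 s2 s3
          have t1 : lsum [OC, OO, OO] 1 = 0 ∧ rsum [OC, OO, OO] 1 = 1 := by decide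
          have t2 : lsum [OC, OO, OO] 2 = 0 ∧ rsum [OC, OO, OO] 2 = 2 := by decide
          have t3 : lsum [OC, OO, OO] 3 = 0 ∧ rsum [OC, OO, OO] 3 = 3 := by decide
          unfold Tab7
          omega
        · rw [hw] at hs
          have s1 := hs 1 (by omega)
          have s2 := hs 2 (by omega)
          have s3 := hs 3 (by omega)
          simp only [Nat.reduceAdd] at s1 s2 s3
          have t1 : lsum [OC, OO, CO] 1 = 0 ∧ rsum [OC, OO, CO] 1 = 1 := by decide
          have t2 : lsum [OC, OO, CO] 2 = 0 ∧ rsum [OC, OO, CO] 2 = 2 := by decide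
          have t3 : lsum [OC, OO, CO] 3 = 1 ∧ rsum [OC, OO, CO] 3 = 3 := by decide
          unfold Tab7
          omega
        · rw [hw] at hs
          have s1 := hs 1 (by omega)
          have s2 := hs 2 (by omega)
          have s3 := hs 3 (by omega)
          simp only [Nat.reduceAdd] at s1 s2 s3
          have t1 : lsum [OC, CO, CO] 1 = 0 ∧ rsum [OC, CO, CO] 1 = 1 := by decide
          have t2 : lsum [OC, CO, CO] 2 = 1 ∧ rsum [OC, CO, CO] 2 = 2 := by decide
          have t3 : lsum [OC, CO, CO] 3 = 2 ∧ rsum [OC, CO, CO] 3 = 3 := by decide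
          unfold Tab7
          omega
      · exfalso
        obtain rfl : d = 2 := by omega
        have e5 := h2 5 (by omega)
        have v1 := hlo 6 (by omega)
        rcases late6' _ h4 hwl with hw | hw
        · rw [hw] at hs
          have s1 := hs 1 (by omega)
          simp only [Nat.reduceAdd] at s1
          have t1 : lsum [OC, OO] 1 = 0 ∧ rsum [OC, OO] 1 = 1 := by decide
          omega
        · rw [hw] at hs
          have s1 := hs 1 (by omega)
          simp only [Nat.reduceAdd] at s1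
          have t1 : lsum [OC, CO] 1 = 0 ∧ rsum [OC, CO] 1 = 1 := by decide
          omega
      · obtain rfl : d = 1 := by omega
        have e4 := h2 4 (by omega)
        have e5 := h2 5 (by omega)
        have e6 := h2 6 (by omega)
        rcases late7 _ h4 hwl with hw | hw
        · rw [hw] at hs
          have s1 := hs 1 (by omega)
          simp only [Nat.reduceAdd] at s1
          have t1 : lsum [OO] 1 = 0 ∧ rsum [OO] 1 = 2 := by decide
          unfold Tab7
          omega
        · rw [hw] at hs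
          have s1 := hs 1 (by omega)
          simp only [Nat.reduceAdd] at s1
          have t1 : lsum [OC] 1 = 0 ∧ rsum [OC] 1 = 1 := by decide
          unfold Tab7
          omega
      · exfalso
        have e7 := h2 7 (by omega)
        omega

/-- no pendant pattern over at least four sites -/
lemma tab7_big (T : Tab7 lo hi) : hi 7 ≤ lo 7 + 2 := by
  unfold Tab7 at T
  omega

end Pool.Agent.GaussPoset.Wd
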