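import Pool.Agent.W_448v8_h97.VaA
import Pool.Agent.W_448nv_h97.NvD
import Pool.Agent.W_448na_h84.NaC

/-!
MP_448cb3_co, G2, case B, `j = 8` (Step 0): the value of the natural parts without flip for the weights
`V8 = (-1, 7, 1, 2, 1, 1, 1, 6, 2)`.  helper97.
-/

set_option autoImplicit false

namespace Pool.Agent.GaussPoset.Win.Pn

set_option linter.unusedSectionVars false

open Finset W4 Wd
open Pool.Agent.GaussPoset.Win.SO (con PN on mem_PN vp F5 mem_F5 N1f N5f)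

universe u

variable {P : Type u} [Fintype P] [PartialOrder P] [DecidableEq P] {r j i : ℕ}
  {psi : P → P} {C : Finset P} {p w z : P} {lo hi : ℕ → ℕ} {e : ℕ → ℕ → P}

section nj

variable (h : NJ P r j) (hij : i + 1 = j) (hi1 : 1 ≤ i)
include h hij hi1

/-- the double over a pendant of a natural part is an end of its row -/
theorem nat_end {t : Tops P} (hn : NatT j (t : P)) (Cm : Cp.Comp (i + 1) (t : P) lo hi e)
    (hp : p ∈ PD P i) (ht : (topOf p : Tops P) = t) {a : ℕ} (ha : lo i ≤ a) (ha' : a + 1 ≤ hi i)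
    (hs : sit i p = {e i a, e i (a + 1)}) : lo (i + 1) = a + 1 ∨ hi (i + 1) = a + 1 := by
  classical
  have H := h.g.H
  have g : GoodTo P r (i + 1) := by rw [hij]; exact h.g
  have W := Cm.toWin
  have hC : Part (i + 1) (SS i t) := h.part (by omega) (by omega) t
  obtain ⟨y, huy, lp, ly, hc2, -⟩ := SO.PD_data H hp
  have hsy : sit i p = uc y := sit_PDs H hp huy
  have hpS : p ∈ SS i t := by rw [← ht]; exact nj_mem h hij hi1 lp
  have hyS : y ∈ SS i t := hC.up hpS (mem_uc.1 (by rw [huy]; exact mem_singleton_self _))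
  have hyt : y ≤ (t : P) := (h.mem (i := i) (by omega) t (y := y) (by omega)).1 hyS
  obtain ⟨s, s1, s2, rfl⟩ := W.surj (i + 1) le_rfl y (by omega) hyt
  have c1 := (Cm.cov i s a (by omega) s1 s2 ha (by omega)).1 (mem_uc.1 (by
    rw [← hsy, hs]; exact mem_insert_self _ _))
  have c2 := (Cm.cov i s (a + 1) (by omega) s1 s2 (by omega) ha').1 (mem_uc.1 (by
    rw [← hsy, hs]; exact mem_insert_of_mem (mem_singleton_self _)))
  obtain rfl : s = a + 1 := by omega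
  by_contra hcon
  have l1 : lo (i + 1) ≤ a := by omega
  have l2 : a + 2 ≤ hi (i + 1) := by omega
  have inj : ∀ b b', lo (i + 1) ≤ b → b ≤ hi (i + 1) → lo (i + 1) ≤ b' → b' ≤ hi (i + 1) →
      b ≠ b' → e (i + 1) b ≠ e (i + 1) b' := by
    intro b b' h1 h2 h3 h4 hne he
    exact hne (W.inj' (k := i + 1) le_rfl h1 h2 h3 h4 he)
  have lv : ∀ b, lo (i + 1) ≤ b → b ≤ hi (i + 1) → lev (e (i + 1) b) = j := fun b h1 h2 => by
    rw [W.lev_x (i + 1) le_rfl b h1 h2, hij]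
  have tt : ∀ b, lo (i + 1) ≤ b → b ≤ hi (i + 1) → e (i + 1) b ≤ (t : P) := fun b h1 h2 =>
    W.le_t (i + 1) le_rfl b h1 h2
  refine nat_two_nb H hn (y := e (i + 1) (a + 1)) (y1 := e (i + 1) a) (y2 := e (i + 1) (a + 2))
    (v1 := e i a) (v2 := e i (a + 1)) (p := p) (lv _ s1 s2) (lv _ l1 (by omega))
    (lv _ (by omega) l2) (tt _ s1 s2) (tt _ l1 (by omega)) (tt _ (by omega) l2)
    (inj _ _ s1 s2 l1 (by omega) (by omega)) (inj _ _ s1 s2 (by omega) l2 (by omega))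
    (inj _ _ l1 (by omega) (by omega) l2 (by omega)) ?_ ?_ ?_ ?_ huy
  · exact (Cm.cov i (a + 1) a (by omega) s1 s2 ha (by omega)).2 (by omega)
  · exact (Cm.cov i a a (by omega) l1 (by omega) ha (by omega)).2 (by omega)
  · exact (Cm.cov i (a + 1) (a + 1) (by omega) s1 s2 (by omega) ha').2 (by omega)
  · exact (Cm.cov i (a + 2) (a + 1) (by omega) (by omega) l2 (by omega) ha').2 (by omega)

end nj

/-- the numbers of the upper pendant patterns at the window `7` -/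
lemma fuw7 {lo hi : ℕ → ℕ} (T : Tab7 lo hi)
    (hP : (lo 6 = lo 5 + 1 ∧ lo 7 = lo 6 ∧
        (lo 8 = lo 7 + 1 ∨ hi 8 = lo 7 + 1) ∧ lo 7 < hi 7) ∨
      (hi 6 = hi 5 ∧ hi 7 = hi 6 + 1 ∧ (lo 8 = hi 7 ∨ hi 8 = hi 7) ∧ lo 7 < hi 7)) :
    Wd.fuw lo hi 7 ≤ 1 ∧ ((lo 5 = 0 ∧ hi 5 = 1 ∧ lo 6 = 0 ∧ hi 6 = 1 ∧ lo 7 = 1 ∧ hi 7 = 2 ∧
        lo 8 = 2 ∧ hi 8 = 3 ∧ Wd.fuw lo hi 7 = 0) ∨
      (hi 6 = 0 ∧ lo 7 = 0 ∧ hi 7 = 1 ∧ lo 8 ≤ 1 ∧ hi 8 = 1) ∨
      (lo 6 = 2 ∧ hi 6 = 3 ∧ lo 7 = 2 ∧ hi 7 = 3 ∧ lo 8 = 3 ∧ hi 8 = 3)) := by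
  unfold Tab7 at T
  unfold Wd.fuw Wd.puL Wd.puR
  simp only [Nat.reduceLeDiff, Nat.reduceSub, true_and]
  rcases T with T | T | T | T | T
  · exfalso; omega
  · exfalso; omega
  · obtain ⟨t1, t2, t3, t4, t5, t6, t7, t8, t9, t10⟩ := T
    simp only [t1, t2, t3, t4, t5, t6, t7, t8, t9, t10]
    decide
  · obtain ⟨t1, t2, t3, t4, t5, t6, t7, t8, t9⟩ := T
    have e1 : hi 8 = 1 := by omega
    refine ⟨?_, Or.inr (Or.inl ⟨t6, t7, t8, t9.1, e1⟩)⟩
    simp only [t1, t2, t3, t4, t5, t6, t7, t8]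
    decide
  · obtain ⟨t1, t2, t3, t4, t5, t6, t7, t8, t9, t10⟩ := T
    simp only [t1, t2, t3, t4, t5, t6, t7, t8, t9, t10]
    decide

section eight

variable (h : NJ P r 8)
include h

/-- THE NEAR ELEMENTS of the pendant of a natural part with at most three sites, no flip -/
theorem small_nn8 {t : Tops P} (hn : NatT 8 (t : P)) (Cm : Cp.Comp 8 (t : P) lo hi e)
    (S : Shape 8 lo hi) (hF : F5 7 (SS 7 t) = ∅) (hp : p ∈ PD P 7)
    (ht : (topOf p : Tops P) = t) : Wd.fuw lo hi 7 ≤ 1 ∧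
      nn 7 p ≤ 4 - (Wd.fuw lo hi 7 : ℤ) := by
  have hlo : ∀ k, k < 8 → lo (k + 1) = lo k ∨ lo (k + 1) = lo k + 1 := fun k hk =>
    Cm.lo_step k hk
  have hhi : ∀ k, k < 8 → hi (k + 1) = hi k ∨ hi (k + 1) = hi k + 1 := fun k hk =>
    Cm.hi_step k hk
  obtain ⟨a0, a1, a2, a3⟩ := pu_row h (i := 7) rfl (by norm_num) Cm hF hp ht
  have hPu : Pu7 lo hi := by
    refine ⟨a1, ?_⟩
    rcases a3 with ⟨c1, -⟩ | ⟨c1, -⟩
    · left
      obtain ⟨-, d1, d2, -⟩ := c1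
      simp only [Nat.reduceSub] at d1 d2
      exact ⟨d1, d2⟩
    · right
      obtain ⟨-, d1, d2, -⟩ := c1
      simp only [Nat.reduceSub] at d1 d2
      exact ⟨d1, d2⟩
  have T := tab7 hlo hhi Cm.hi_zero S hPu
  rcases a3 with ⟨c1, c2⟩ | ⟨c1, c2⟩
  · have k1 := nn_le h (i := 7) rfl (by norm_num) Cm (a := lo 7) le_rfl (by omega) c2 (by norm_num)
    have k2 := nat_end h (i := 7) rfl (by norm_num) hn Cm hp ht (a := lo 7) le_rfl (by omega) c2
    obtain ⟨-, d1, d2, -⟩ := c1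
    simp only [Nat.reduceSub] at d1 d2
    obtain ⟨f1, f2⟩ := fuw7 T (Or.inl ⟨d1, d2, k2, a1⟩)
    refine ⟨f1, ?_⟩
    simp only [Nat.reduceAdd, Nat.reduceSub] at k1
    rcases f2 with f2 | f2 | f2
    · omega
    · omega
    · omega
  · have e7 : hi 7 - 1 + 1 = hi 7 := by omega
    have k1 := nn_le h (i := 7) rfl (by norm_num) Cm (a := hi 7 - 1) (by omega) (by omega)
      (by rw [e7]; exact c2) (by norm_num)
    have k2 := nat_end h (i := 7) rfl (by norm_num) hn Cm hp ht (a := hi 7 - 1) (by omega)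
      (by omega) (by rw [e7]; exact c2)
    rw [e7] at k2
    obtain ⟨-, d1, d2, -⟩ := c1
    simp only [Nat.reduceSub] at d1 d2
    obtain ⟨f1, f2⟩ := fuw7 T (Or.inr ⟨d1, d2, k2, a1⟩)
    refine ⟨f1, ?_⟩
    simp only [Nat.reduceAdd, Nat.reduceSub] at k1
    rcases f2 with f2 | f2 | f2
    · omega
    · omega
    · omega

end eight

end Pool.Agent.GaussPoset.Win.Pn
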