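import Pool.Agent.W_448v8_h97.VaB
import Pool.Agent.W_448p_h97.PaP

/-!
MP_448cb3_co, G2, case B, `j = 8` (Step 0): the value of the natural parts without flip for the weights
`V8 = (-1, 7, 1, 2, 1, 1, 1, 6, 2)`, at most three sites.  helper97.
-/

set_option autoImplicit false

namespace Pool.Agent.GaussPoset.Win.Pn

set_option linter.unusedSectionVars false

open Finset W4 Wd
open Pool.Agent.GaussPoset.Win.SO (con PN on mem_PN vp F5 mem_F5 N1f N5f)

universe u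

variable {P : Type u} [Fintype P] [PartialOrder P] [DecidableEq P] {r j i : ℕ}
  {psi : P → P} {C : Finset P} {p w z : P} {lo hi : ℕ → ℕ} {e : ℕ → ℕ → P}

/-- the arithmetic of the value for the weights `V8` -/
lemma small_arith8 {D k f n z sk N w : ℤ} (hD : 0 ≤ D)
    (hn : n ≤ 4 - f) (hz : 0 ≤ z) (hs : sk ≤ 2 * z) (hN : 0 ≤ N) (hw : 0 ≤ w) :
    0 ≤ 2 * (-(D + k - f) + ((D + k - f) ^ 2 + 2 * N) + w) + (z * (7 + 1) -
      4 * 1 * z * (k + n - 3) - 2 * 1 * sk - 2 * 2 * z * (-(D + k - f)) - 4 * 1 * z * 0 +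
        (2 * 1 - 2) * (z * (z - 1))) := by
  have hA : 0 ≤ (D + k - f) ^ 2 - (D + k - f) := by
    rcases le_or_gt (D + k - f) 0 with g | g
    · nlinarith
    · nlinarith
  have h1 : 0 ≤ z * (4 - f - n) := mul_nonneg hz (by linarith)
  have h2 : 0 ≤ z * D := mul_nonneg hz hD
  nlinarith

section eight

variable (h : NJ P r 8)
include h

/-- the window `8` of a natural part for the weights `1, 1, 6, 2` -/
theorem nat_own2_8 {t : Tops P} (hn : NatT 8 (t : P)) :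
    0 ≤ F2 8 t + F4 8 t + 6 * F3 8 t + 2 * F6 8 t := by
  obtain ⟨-, e2⟩ := EK.NJ.nat_win h (by norm_num) hn
  have e3 := EK.NJ.nat_F3 h (by norm_num) hn
  obtain ⟨K, psi, R⟩ := EK.exists_red P 8
  have e6 : 0 ≤ F6 8 t := (EK.NJ.w3_sq h (by norm_num) R t).1
  have h1 := card_le_card (DU_sub 8 (cext (8 + 1) (topOf : P → Tops P) t))
  have h2 := card_le_card (T4_subset 8 (cext (8 + 1) (topOf : P → Tops P) t))
  have h6 : ((DU 8 (cext (8 + 1) (topOf : P → Tops P) t)).card : ℤ) ≤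
    (DC 8 (cext (8 + 1) (topOf : P → Tops P) t)).card := by exact_mod_cast h1
  have h7 : ((T4 8 (cext (8 + 1) (topOf : P → Tops P) t)).card : ℤ) ≤
    (Z4 8 (cext (8 + 1) (topOf : P → Tops P) t)).card := by exact_mod_cast h2
  have h8 : (0 : ℤ) ≤ (D2 8 (cext (8 + 1) (topOf : P → Tops P) t)).card :=
    Nat.cast_nonneg _
  rw [e3]
  linarith

/-- THE VALUE of a natural part with at most three sites, no flip (twice), weights `V8` -/
theorem small_nonneg8 {t : Tops P} (hn : NatT 8 (t : P)) (Cm : Cp.Comp 8 (t : P) lo hi e)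
    (S : Shape 8 lo hi) (h3 : (st 7 (SS 7 t)).card ≤ 3) (hF : F5 7 (SS 7 t) = ∅) :
    0 ≤ 2 * own ⟨-1, 7, 1, 2, 1, 1, 1, 6, 2⟩ 7 8 t +
      ∑ p ∈ (PD P 7).filter (fun p => (topOf p : Tops P) = t),
        shr ⟨-1, 7, 1, 2, 1, 1, 1, 6, 2⟩ 7 p := by
  classical
  have H := h.g.H
  have g : GoodTo P r 8 := h.g
  have W := Cm.toWin
  have hcs := h.card_SS (i := 7) (by norm_num) (C := Cm)
  have hle := W.lohi 7 (by norm_num)
  have hV : hi 7 ≤ lo 7 + 2 := by omega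
  obtain ⟨v5, v6, v8, v10⟩ := small_vals h (i := 7) rfl (by norm_num) hn h3 hF
  have hw := nat_own2_8 h hn
  have ho : own ⟨-1, 7, 1, 2, 1, 1, 1, 6, 2⟩ 7 8 t = -A3 7 t + (A3 7 t ^ 2 +
      2 * ((N1f 7 (SS 7 t)).card : ℤ)) + (F2 8 t + F4 8 t + 6 * F3 8 t + 2 * F6 8 t) := by
    unfold own
    rw [v5, v6, v8, v10]
    ring
  have hN : (0 : ℤ) ≤ (N1f 7 (SS 7 t)).card := Nat.cast_nonneg _
  have hA : 0 ≤ A3 7 t ^ 2 - A3 7 t := by
    rcases le_or_gt (A3 7 t) 0 with k | k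
    · nlinarith
    · nlinarith
  rcases Finset.eq_empty_or_nonempty ((PD P 7).filter (fun p => (topOf p : Tops P) = t)) with
    h0 | ⟨p, hp⟩
  · rw [h0, Finset.sum_empty, ho]
    linarith
  obtain ⟨hpD, hpt⟩ := mem_filter.1 hp
  have hone : (PD P 7).filter (fun p => (topOf p : Tops P) = t) = {p} := by
    rw [eq_singleton_iff_unique_mem]
    refine ⟨hp, fun q hq => ?_⟩
    obtain ⟨hqD, hqt⟩ := mem_filter.1 hq
    exact nj_hone h (i := 7) rfl (by norm_num) q hqD p hpD (by rw [hqt, hpt])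
  obtain ⟨w5, w7⟩ := small_net h (i := 7) rfl (by norm_num) hn h3 hF hpD hpt
  obtain ⟨-, f2⟩ := small_nn8 h hn Cm S hF hpD hpt
  have hk := small_kc h (i := 7) rfl (by norm_num) hpD hpt
  have a3 : A3 7 t = ((ZU 7 (SS 7 t)).card : ℤ) - (ZL 7 (SS 7 t)).card +
      (FL 7 (SS 7 t)).card - (FU' 7 (SS 7 t)).card := nj_al3 h (i := 7) rfl (by norm_num) t hF
  have hZ := small_ZL h (i := 7) rfl (by norm_num) hn Cm hV
  have hFU := W.card_FU g t.2 (i := 7) (by norm_num) (S := SS 7 t)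
    (fun y hy => h.mem (i := 7) (by norm_num) t (by omega))
  have hS : ∑ z ∈ zs 7 (topOf : P → Tops P) p, kc z ≤
      2 * zc 7 (topOf : P → Tops P) p := by
    have h1 : ∀ z ∈ zs 7 (topOf : P → Tops P) p, kc z ≤ 2 := by
      intro z _
      have h2 : ks z ⊆ dc z := fun y hy => mem_dc.2 (mem_uc.1 (by rw [mem_ks.1 hy]; simp))
      have h3 := (card_le_card h2).trans (dc_card_le H z)
      unfold kc
      exact_mod_cast h3
    have h2 := Finset.sum_le_sum h1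
    rw [sum_const, nsmul_eq_mul] at h2
    unfold zc
    linarith
  rw [hone, sum_singleton, ho]
  unfold shr
  rw [w5, w7]
  have hz0 : 0 ≤ zc 7 (topOf : P → Tops P) p := Nat.cast_nonneg _
  have hfu : ((FU' 7 (SS 7 t)).card : ℤ) = (Wd.fuw lo hi 7 : ℤ) := by exact_mod_cast hFU
  have hZ' : ((ZL 7 (SS 7 t)).card : ℤ) ≤ (ZU 7 (SS 7 t)).card := by exact_mod_cast hZ
  rw [← hk, hfu] at a3
  have htw : ((1 : ℤ) - 2 + 1) * ∑ z ∈ zs 7 (topOf : P → Tops P) p,
      ((tw 7 (topOf : P → Tops P) z).card : ℤ) = 0 := by norm_num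
  rw [htw, sub_zero]
  obtain ⟨D, hD⟩ : ∃ D : ℤ, D = ((ZU 7 (SS 7 t)).card : ℤ) - (ZL 7 (SS 7 t)).card := ⟨_, rfl⟩
  rw [← hD] at a3
  have hD0 : 0 ≤ D := by linarith
  rw [a3]
  exact small_arith8 hD0 f2 hz0 hS hN hw

end eight

end Pool.Agent.GaussPoset.Win.Pn
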